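import Pool.Agent.Results.MP_1b3842_gt.MengerScaleCH
import Pool.Agent.Y996.RS.Gen

/-!
Under the continuum hypothesis there is a `cFin`-scale which is a Rothberger space (and hence
Menger, and a set of strong measure zero).
-/

set_option autoImplicit false

namespace Pool.Agent.Results.MP_1b3842_gt.RothbergerScaleCH

open Set Filter Cardinal
open Pool.Agent.Results.MP_1b3842_gt.MengerScaleCH

/-- The Rothberger property: for every sequence of open covers one can choose one member of each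
cover such that every point is covered by infinitely many of them. -/
def IsRothberger (Y : Type*) [TopologicalSpace Y] : Prop :=
  ∀ U : ℕ → Set (Set Y), (∀ n, (∀ u ∈ U n, IsOpen u) ∧ ⋃₀ U n = Set.univ) →
    ∃ F : ℕ → Set Y, (∀ n, F n ∈ U n) ∧ ∀ y, ∃ᶠ n in atTop, y ∈ F n

/-- A set of functions has strong measure zero: for every sequence of lengths it is covered by
cylinders of these lengths. -/
def StrongMeasureZero (X : Set (ℕ → ℕ)) : Prop :=
  ∀ k : ℕ → ℕ, ∃ y : ℕ → ℕ → ℕ, ∀ x ∈ X, ∃ n, ∀ i < k n, x i = y n i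

theorem menger_of_rothberger {Y : Type*} [TopologicalSpace Y] (h : IsRothberger Y) :
    IsMenger Y := by
  intro U hU
  obtain ⟨F, hF1, hF2⟩ := h U hU
  refine ⟨fun n => {F n}, fun n => ⟨Set.singleton_subset_iff.2 (hF1 n), Set.finite_singleton _⟩,
    fun y => ?_⟩
  refine (hF2 y).mono fun n hn => ?_
  rw [Set.sUnion_singleton]
  exact hn

theorem smz_of_rothberger {X : Set (ℕ → ℕ)} (h : IsRothberger X) : StrongMeasureZero X := by
  intro k
  obtain ⟨F, hF1, hF2⟩ := h (fun n => range fun y : ℕ → ℕ => {x : X | ∀ i < k n, x.1 i = y i}) (by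
    intro n
    refine ⟨?_, ?_⟩
    · rintro _ ⟨y, rfl⟩
      have h1 : {x : X | ∀ i < k n, x.1 i = y i} =
          ⋂ i ∈ Finset.range (k n), {x : X | x.1 i = y i} := by
        ext x
        simp
      show IsOpen {x : X | ∀ i < k n, x.1 i = y i}
      rw [h1]
      apply isOpen_biInter_finset
      intro i _
      exact (isOpen_discrete ({y i} : Set ℕ)).preimage
        ((continuous_apply i : Continuous fun x : ℕ → ℕ => x i).comp continuous_subtype_val)
    · rw [Set.eq_univ_iff_forall]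
      intro x
      exact ⟨_, ⟨x.1, rfl⟩, fun i _ => rfl⟩)
  choose y hy using hF1
  refine ⟨y, fun x hx => ?_⟩
  obtain ⟨n, hn⟩ := (hF2 ⟨x, hx⟩).exists
  rw [← hy n] at hn
  exact ⟨n, hn⟩

open Pool.Agent.H752R3 in
/-- Under CH some `cFin`-scale is Rothberger (as a subspace of the Baire space); it is Menger and
has strong measure zero. -/
theorem result (CH : (ℵ₁ : Cardinal.{0}) = 𝔠) :
    ∃ X : Set (ℕ → ℕ), IsCFinScale X ∧ IsRothberger X ∧ IsMenger X ∧ StrongMeasureZero X := by
  classical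
  obtain ⟨f, c, hub, hle, hrot⟩ := Pool.Agent.Y996.RS.exists_family CH
  have hne : Nonempty (ℵ₁ : Cardinal.{0}).ord.ToType := by
    rw [← Cardinal.mk_ne_zero_iff, Cardinal.mk_ord_toType]
    exact (Cardinal.aleph_pos 1).ne'
  set S : Set Cardinal.{0} :=
    {κ | ∃ B : Set (ℕ → ℕ), B ⊆ InfSets ∧ #B = κ ∧ ¬ ∃ g ∈ InfSets, ∀ f ∈ B, LeStar f g} with hS
  have hInf : #InfSets ∈ S := by
    refine ⟨InfSets, Subset.rfl, rfl, ?_⟩
    rintro ⟨g, hg, hb⟩
    have hg' : StrictMono g := hg
    have h1 : (fun n => g n + 1) ∈ InfSets := by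
      intro m n hmn
      have := hg' hmn
      show g m + 1 < g n + 1
      omega
    obtain ⟨N, hN⟩ := eventually_atTop.1 (hb _ h1)
    have := hN N (le_refl _)
    omega
  have hb1 : (ℵ₁ : Cardinal.{0}) ≤ bNumber := by
    apply le_csInf ⟨_, hInf⟩
    rintro κ ⟨B, hB1, rfl, hB2⟩
    by_contra hlt
    have hcB : B.Countable := countable_of_lt_aleph1 (not_le.1 hlt)
    obtain ⟨g, hg1, hg2⟩ := exists_bound_of_countable hcB (fun f hf => hB1 hf)
    exact hB2 ⟨g, hg1, hg2⟩
  have hb2 : bNumber ≤ 𝔠 := by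
    refine (csInf_le' hInf).trans ?_
    refine (Cardinal.mk_set_le _).trans ?_
    simp
  have hR : IsRothberger (range fun a => psum (f a)) := fun U hU =>
    Pool.Agent.Y996.RS.rothberger_of_family f psum continuous_psum hrot U hU
  refine ⟨range fun a => psum (f a), ⟨?_, ?_, ?_⟩, hR, menger_of_rothberger hR,
    smz_of_rothberger hR⟩
  · rintro _ ⟨a, rfl⟩
    exact psum_strictMono _
  · -- cardinality
    rw [← CH] at hb2
    refine hb2.trans ?_
    by_contra hlt
    have hcB : (range fun a => psum (f a)).Countable := countable_of_lt_aleph1 (not_le.1 hlt)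
    obtain ⟨g, hg1, hg2⟩ := exists_bound_of_countable hcB (by
      rintro _ ⟨a, rfl⟩
      exact psum_strictMono _)
    obtain ⟨a, ha⟩ := hub (fun n => g n + 1)
    have h1 := hle a a (le_refl _)
    have h2 : ∀ᶠ n in atTop, psum (f a) n ≤ g n := hg2 _ ⟨a, rfl⟩
    obtain ⟨n, hn, h3, h4⟩ := (ha.and_eventually (h1.and h2)).exists
    have h5 := le_psum (f a) (le_refl n)
    omega
  · intro b hb
    obtain ⟨a, ha⟩ := hub b
    obtain ⟨d, hd1, hd2, hd3⟩ := exists_strictMono_between hb ha
    refine ⟨d, hd1, hd2, lt_of_le_of_lt ?_ (lt_of_lt_of_le (Cardinal.aleph0_lt_aleph_one) hb1)⟩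
    rw [Cardinal.mk_le_aleph0_iff, Set.countable_coe_iff]
    refine ((countable_Iio_omega1 a).image fun a => psum (f a)).mono ?_
    rintro _ ⟨⟨a', rfl⟩, hx⟩
    refine ⟨a', ?_, rfl⟩
    by_contra hcon
    exact hx (hd3 _ (hle a a' (not_lt.1 hcon)))

end Pool.Agent.Results.MP_1b3842_gt.RothbergerScaleCH
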